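import Pool.Agent.K7.H2.UT.Stm

/-! Job OBS of project UT (helper2). -/

set_option autoImplicit false

open OnePoint

namespace Pool.Agent.K7.H88.UT

open Pool.Agent.K7.H2.UT

/-- `a` is the value of a unit in `H`. -/
def InH {F : Type} [Field F] (H : Subgroup Fˣ) (a : F) : Prop := ∃ u ∈ H, (u : F) = a

open Classical in
/-- the partition -/
noncomputable def Pt {F : Type} [Field F] (H : Subgroup Fˣ) : OnePoint F → Fin 4
  | ∞ => 0
  | OnePoint.some a => if a = 0 then 1 else if InH H a then 2 else 3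

open Classical in
theorem pt_zero {F : Type} [Field F] (H : Subgroup Fˣ) (w : OnePoint F) (h : Pt H w = 0) :
    w = ∞ := by
  induction w using OnePoint.rec with
  | infty => rfl
  | coe a =>
    exfalso
    change (if a = 0 then (1 : Fin 4) else if InH H a then 2 else 3) = 0 at h
    split_ifs at h <;> simp at h

open Classical in
theorem pt_one {F : Type} [Field F] (H : Subgroup Fˣ) (w : OnePoint F) (h : Pt H w = 1) :
    w = OnePoint.some (0 : F) := by
  induction w using OnePoint.rec with
  | infty => exact absurd h (by show ¬ ((0 : Fin 4) = 1); decide)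
  | coe a =>
    change (if a = 0 then (1 : Fin 4) else if InH H a then 2 else 3) = 1 at h
    split_ifs at h with h1 h2
    · rw [h1]
    · exact absurd h (by decide)
    · exact absurd h (by decide)

open Classical in
theorem pt_two {F : Type} [Field F] (H : Subgroup Fˣ) (w : OnePoint F) (h : Pt H w = 2) :
    ∃ a : F, w = OnePoint.some a ∧ InH H a := by
  induction w using OnePoint.rec with
  | infty => exact absurd h (by show ¬ ((0 : Fin 4) = 2); decide)
  | coe a =>
    change (if a = 0 then (1 : Fin 4) else if InH H a then 2 else 3) = 2 at h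
    split_ifs at h with h1 h2
    · exact absurd h (by decide)
    · exact ⟨a, rfl, h2⟩
    · exact absurd h (by decide)

open Classical in
theorem pt_three {F : Type} [Field F] (H : Subgroup Fˣ) (w : OnePoint F) (h : Pt H w = 3) :
    ∃ a : F, w = OnePoint.some a ∧ ¬ InH H a := by
  induction w using OnePoint.rec with
  | infty => exact absurd h (by show ¬ ((0 : Fin 4) = 3); decide)
  | coe a =>
    change (if a = 0 then (1 : Fin 4) else if InH H a then 2 else 3) = 3 at h
    split_ifs at h with h1 h2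
    · exact absurd h (by decide)
    · exact absurd h (by decide)
    · exact ⟨a, rfl, h2⟩

theorem inH_unit {F : Type} [Field F] (H : Subgroup Fˣ) (u : Fˣ) : InH H (u : F) ↔ u ∈ H := by
  constructor
  · rintro ⟨v, hv, h⟩
    rwa [← Units.ext h]
  · intro h; exact ⟨u, h, rfl⟩

open Classical in
theorem pt_surj {F : Type} [Field F] (H : Subgroup Fˣ) (hH : H ≠ ⊤) :
    Function.Surjective (Pt H) := by
  have h3 : ∃ u : Fˣ, u ∉ H := by
    by_contra hcon
    push Not at hcon
    exact hH (Subgroup.eq_top_iff' H |>.mpr hcon)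
  obtain ⟨u, hu⟩ := h3
  intro i
  fin_cases i
  · exact ⟨∞, rfl⟩
  · refine ⟨OnePoint.some 0, ?_⟩
    show (if (0 : F) = 0 then (1 : Fin 4) else if InH H (0 : F) then 2 else 3) = 1
    simp
  · refine ⟨OnePoint.some 1, ?_⟩
    show (if (1 : F) = 0 then (1 : Fin 4) else if InH H (1 : F) then 2 else 3) = 2
    rw [if_neg one_ne_zero, if_pos ⟨1, H.one_mem, by simp⟩]
  · refine ⟨OnePoint.some (u : F), ?_⟩
    show (if (u : F) = 0 then (1 : Fin 4) else if InH H (u : F) then 2 else 3) = 3
    rw [if_neg u.ne_zero, if_neg (by rw [inH_unit]; exact hu)]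

theorem stOBS : StOBS := by
  classical
  intro hINV F _ _ H hH hneg hσ hxyz G hG hUT
  obtain ⟨x, hx, y, hy, z, hz, hsum⟩ := hxyz
  obtain ⟨lam, hlam, mu, hmu, hlm⟩ : ∃ l ∈ H, ∃ m ∈ H, (l : F) + m = 1 := by
    refine ⟨x * z⁻¹, H.mul_mem hx (H.inv_mem hz), y * z⁻¹, H.mul_mem hy (H.inv_mem hz), ?_⟩
    rw [Units.val_mul, Units.val_mul, ← add_mul, hsum, ← Units.val_mul]
    simp
  have hl0 : (lam : F) ≠ 0 := lam.ne_zero
  have hl1 : (lam : F) ≠ 1 := by
    intro h
    rw [h] at hlm
    exact mu.ne_zero (by linear_combination hlm)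
  have hone : InH H (1 : F) := ⟨1, H.one_mem, by simp⟩
  have hnegone : InH H (-1 : F) := ⟨-1, hneg, by simp⟩
  have hInl : InH H (lam : F) := ⟨lam, hlam, rfl⟩
  have hInm : InH H (mu : F) := ⟨mu, hmu, rfl⟩
  have hmulIn : ∀ a b : F, InH H a → InH H b → InH H (a * b) := by
    rintro a b ⟨u, hu, rfl⟩ ⟨v, hv, rfl⟩
    exact ⟨u * v, H.mul_mem hu hv, by simp⟩
  have hnegIn : ∀ a : F, InH H a → InH H (-a) := by
    intro a ha
    have := hmulIn _ _ hnegone ha
    simpa using this
  let S : Finset (OnePoint F) := {∞, OnePoint.some (0 : F), OnePoint.some (lam : F), OnePoint.some (1 : F)}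
  have hS : ∀ s ∈ S, s = ∞ ∨ s = OnePoint.some (0 : F) ∨ s = OnePoint.some (lam : F) ∨
      s = OnePoint.some (1 : F) := by
    intro s hs
    simpa [S] using hs
  have hScard : S.card = 4 := by
    have hsome : ∀ a b : F, (OnePoint.some a : OnePoint F) = OnePoint.some b → a = b := by
      intro a b hab
      exact OnePoint.coe_injective hab
    have hinf : ∀ a : F, (∞ : OnePoint F) ≠ OnePoint.some a := fun a => OnePoint.infty_ne_coe a
    show Finset.card {∞, OnePoint.some (0 : F), OnePoint.some (lam : F), OnePoint.some (1 : F)} = 4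
    rw [Finset.card_insert_of_notMem, Finset.card_insert_of_notMem, Finset.card_insert_of_notMem,
      Finset.card_singleton]
    · rw [Finset.mem_singleton]
      intro h; exact hl1 (hsome _ _ h)
    · rw [Finset.mem_insert, Finset.mem_singleton]
      rintro (h | h)
      · exact hl0 (hsome _ _ h).symm
      · exact zero_ne_one (hsome _ _ h)
    · rw [Finset.mem_insert, Finset.mem_insert, Finset.mem_singleton]
      rintro (h | h | h)
      · exact hinf _ h
      · exact hinf _ h
      · exact hinf _ h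
  have hD : ∀ s ∈ S, ∀ s' ∈ S, s ≠ s' → InH H (D s s') := by
    intro s hs s' hs' hne
    rcases hS s hs with rfl | rfl | rfl | rfl <;> rcases hS s' hs' with rfl | rfl | rfl | rfl
    · exact absurd rfl hne
    · exact hone
    · exact hone
    · exact hone
    · exact hnegone
    · exact absurd rfl hne
    · show InH H ((0 : F) - lam)
      rw [zero_sub]; exact hnegIn _ hInl
    · show InH H ((0 : F) - 1)
      rw [zero_sub]; exact hnegone
    · exact hnegone
    · show InH H ((lam : F) - 0)
      rw [sub_zero]; exact hInl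
    · exact absurd rfl hne
    · show InH H ((lam : F) - 1)
      have : (lam : F) - 1 = -(mu : F) := by linear_combination hlm
      rw [this]; exact hnegIn _ hInm
    · exact hnegone
    · show InH H ((1 : F) - 0)
      rw [sub_zero]; exact hone
    · show InH H ((1 : F) - lam)
      have : (1 : F) - lam = (mu : F) := by linear_combination -hlm
      rw [this]; exact hInm
    · exact absurd rfl hne
  obtain ⟨g, hg, hinj⟩ := hUT S hScard (Pt H) (pt_surj H hH)
  have hex : ∀ i : Fin 4, ∃ s ∈ S, Pt H (g s) = i := by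
    have himg : (S.image (fun s => Pt H (g s))).card = 4 := by
      rw [Finset.card_image_of_injOn hinj, hScard]
    have huniv : S.image (fun s => Pt H (g s)) = Finset.univ := by
      apply Finset.eq_univ_of_card
      rw [himg]; simp
    intro i
    have : i ∈ S.image (fun s => Pt H (g s)) := by rw [huniv]; exact Finset.mem_univ _
    rw [Finset.mem_image] at this
    exact this
  obtain ⟨s0, hs0, hp0⟩ := hex 0
  obtain ⟨s1, hs1, hp1⟩ := hex 1
  obtain ⟨s2, hs2, hp2⟩ := hex 2
  obtain ⟨s3, hs3, hp3⟩ := hex 3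
  have hne : ∀ {a b : OnePoint F} {i j : Fin 4}, Pt H (g a) = i → Pt H (g b) = j → i ≠ j → a ≠ b := by
    intro a b i j ha hb hij hab
    rw [hab] at ha
    exact hij (ha.symm.trans hb)
  have h02 := hD s0 hs0 s2 hs2 (hne hp0 hp2 (by decide))
  have h13 := hD s1 hs1 s3 hs3 (hne hp1 hp3 (by decide))
  have h03 := hD s0 hs0 s3 hs3 (hne hp0 hp3 (by decide))
  have h12 := hD s1 hs1 s2 hs2 (hne hp1 hp2 (by decide))
  obtain ⟨σ, δ, c, hδ, hc, hinv⟩ := hINV F g (hG hg)
  have hw0 := pt_zero H _ hp0
  have hw1 := pt_one H _ hp1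
  obtain ⟨a, hw2, ha⟩ := pt_two H _ hp2
  obtain ⟨b, hw3, hb⟩ := pt_three H _ hp3
  have E1 := hinv s0 s2
  have E2 := hinv s1 s3
  have E3 := hinv s0 s3
  have E4 := hinv s1 s2
  rw [hw0, hw2] at E1
  rw [hw1, hw3] at E2
  rw [hw0, hw3] at E3
  rw [hw1, hw2] at E4
  change (1 : F) = _ at E1
  change (0 : F) - b = _ at E2
  change (1 : F) = _ at E3
  change (0 : F) - a = _ at E4
  obtain ⟨u02, hu02, e02⟩ := h02
  obtain ⟨u13, hu13, e13⟩ := h13
  obtain ⟨u03, hu03, e03⟩ := h03
  obtain ⟨u12, hu12, e12⟩ := h12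
  obtain ⟨ua, hua, ea⟩ := ha
  rw [← e02] at E1
  rw [← e13] at E2
  rw [← e03] at E3
  rw [← e12] at E4
  have key : b * (σ u03 * σ u12) = a * (σ u02 * σ u13) := by
    have k1 : -b = δ ^ 2 * c s0 * c s1 * c s2 * c s3 * (σ u02 * σ u13) := by
      calc -b = 1 * (0 - b) := by ring
        _ = (δ * c s0 * c s2 * σ u02) * (δ * c s1 * c s3 * σ u13) := by rw [← E1, ← E2]
        _ = _ := by ring
    have k2 : -a = δ ^ 2 * c s0 * c s1 * c s2 * c s3 * (σ u03 * σ u12) := by
      calc -a = 1 * (0 - a) := by ring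
        _ = (δ * c s0 * c s3 * σ u03) * (δ * c s1 * c s2 * σ u12) := by rw [← E3, ← E4]
        _ = _ := by ring
    linear_combination (-(σ u03 * σ u12)) * k1 + (σ u02 * σ u13) * k2
  apply hb
  refine ⟨ua * (Units.map (σ : F →* F) u02 * Units.map (σ : F →* F) u13) *
    (Units.map (σ : F →* F) u03 * Units.map (σ : F →* F) u12)⁻¹,
    H.mul_mem (H.mul_mem hua (H.mul_mem (hσ σ _ hu02) (hσ σ _ hu13)))
      (H.inv_mem (H.mul_mem (hσ σ _ hu03) (hσ σ _ hu12))), ?_⟩
  rw [Units.val_mul, Units.mul_inv_eq_iff_eq_mul, Units.val_mul, Units.val_mul, Units.val_mul, ea]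
  show a * (σ u02 * σ u13) = b * (σ u03 * σ u12)
  exact key.symm

end Pool.Agent.K7.H88.UT
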